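import Pool.Agent.helper44.EX.Spec
import Pool.Agent.helper98.ILF.Density

set_option autoImplicit false

open Complex Metric Set Filter Topology MeasureTheory Pool.Agent.helper98.ILF

noncomputable section

namespace EX

theorem CVL : CVL_stmt := by
  intro S h p s hs hm hb hd hinj hmt hder
  have hBm : MeasurableSet (ball p s) := measurableSet_ball
  have hfd : ∀ y ∈ ball p s, HasFDerivWithinAt S
      ((ContinuousLinearMap.toSpanSingleton ℂ (deriv S y)).restrictScalars ℝ : ℂ →L[ℝ] ℂ)
      (ball p s) y := by
    intro y hy
    exact (((hd.differentiableAt (isOpen_ball.mem_nhds hy)).hasDerivAt.hasFDerivAt).restrictScalars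
      ℝ).hasFDerivWithinAt
  have h1 := integral_image_eq_integral_abs_det_fderiv_smul volume hBm hfd hinj h
  have hint2 : IntegrableOn h (ball p (2 * s)) := by
    refine Measure.integrableOn_of_bounded (M := 2) measure_ball_lt_top.ne hm.aestronglyMeasurable ?_
    refine Eventually.of_forall fun z => ?_
    rw [Real.norm_eq_abs, abs_of_nonneg (hb z).1]
    exact (hb z).2
  have himg : S '' ball p s ⊆ ball p (2 * s) := hmt.image_subset
  have h2 : ∫ x in S '' ball p s, h x ≤ ∫ x in ball p (2 * s), h x :=
    setIntegral_mono_set hint2 (Eventually.of_forall fun z => (hb z).1) himg.eventuallyLE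
  have h3 := (integrableOn_image_iff_integrableOn_abs_det_fderiv_smul volume hBm hfd hinj h).1
    (hint2.mono_set himg)
  have h4 : ∫ z in ball p s, h (S z) ≤ ∫ z in ball p s, 4 *
      (|((ContinuousLinearMap.toSpanSingleton ℂ (deriv S z)).restrictScalars ℝ : ℂ →L[ℝ] ℂ).det| •
        h (S z)) := by
    refine integral_mono_of_nonneg (Eventually.of_forall fun z => (hb (S z)).1)
      (h3.const_mul 4) ?_
    rw [EventuallyLE, ae_restrict_iff' hBm]
    refine Eventually.of_forall fun z hz => ?_
    rw [det_smul, abs_of_nonneg (by positivity), smul_eq_mul]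
    have h5 := hder z hz
    have h6 := (hb (S z)).1
    have h7 : 1 / 4 ≤ ‖deriv S z‖ ^ 2 := by nlinarith
    nlinarith
  rw [integral_const_mul] at h4
  rw [← h1] at h4
  linarith

end EX
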